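import Pool.Agent.H73.OW.Exa2
import Pool.Agent.H71.S3.Tvb
import Pool.Agent.H61.Tu.GamComm

/-!
# [H97 OW LAW] the exact change of `Hh` under conjugators one layer below (MP_b39724_nt, theorem OW; think 1824, 1828 (A), 1832 (I), 1834 (1))

`m = d + 1`, `2 ≤ d`. `law` (`Lwf` of H73/OW/Exa2): `Hh (d+1) (τ z) x η = ep q (lw Bf d x z) * Hh (d+1) τ x η` for `z ∈ Zg d` (`gam_d` at the places `pp`, `gam_(d+1)` otherwise), if
`(η j).1 = Bf 1 (d+1) (y j)` at the letters `pp` and `Bf` satisfies the Jacobi identity (no antisymmetry).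
Proof. `N = Nks Pi`, `Q' = ⁅N ⊓ gam_(d+2), ⊤⁆`. `H (d+2)` depends only on the product `Pd` of the blocks modulo `Q'` (`h_cnt`). `Lm t a`: there are `n j ∈ N ⊓ gam_(d+1)`
(`pp`) such that the changes by `n` multiply `Pd` by `t` modulo `Q'`, and `pr η n = a`. `Lm` is multiplicative; `Lm ⁅u, n⁆ (Bf i j u n)` for `u ∈ gam_i`,
`n ∈ N ⊓ gam_j`, `i + j = d + 2`: for `i = 1` because the `y j` generate (`gen`), step: Hall-Witt modulo `Q'` and the Jacobi identity of `Bf`.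
The change of `τ` multiplies `Pd` by the product of the `⁅z v, block v⁆`.
-/

set_option autoImplicit false

open scoped commutatorElement
open scoped Classical

noncomputable section

namespace H97.OW

open H1.S3 H73.S3 H73.OW H71.S3

attribute [local instance 50] Fintype.ofFinite

section pure

variable {S : Type} [Group S]

theorem cm2 {i j : ℕ} (hi : 1 ≤ i) (hj : 1 ≤ j) {u v : S} (hu : u ∈ gm S i) (hv : v ∈ gm S j) :
    ⁅u, v⁆ ∈ gm S (i + j) := by
  obtain ⟨a, rfl⟩ : ∃ a, i = a + 1 := ⟨i - 1, by omega⟩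
  obtain ⟨b, rfl⟩ : ∃ b, j = b + 1 := ⟨j - 1, by omega⟩
  have h := Pool.Agent.H61.Tu.commutator_mem_gam' (G := S) (i := a) (j := b) hu hv
  have e : a + 1 + (b + 1) = a + b + 1 + 1 := by omega
  rw [e]
  exact h

/-- the commutators with the kernel -/
theorem cm_le (N : Subgroup S) [N.Normal] (i : ℕ) : ∀ j : ℕ, 1 ≤ j →
    ⁅gm S (i + 1), N ⊓ gm S j⁆ ≤ ⁅N ⊓ gm S (i + j), ⊤⁆ := by
  induction i with
  | zero =>
    intro j _
    rw [Subgroup.commutator_comm]
    exact Subgroup.commutator_mono (by rw [zero_add]) le_top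
  | succ i ih =>
    intro j hj
    have h1 : gm S (i + 1 + 1) = ⁅gm S (i + 1), ⊤⁆ := gm_succ (i + 1) (by omega)
    rw [h1]
    refine Nin.three_le _ _ _ _ ?_ ?_
    · have h2 : ⁅(⊤ : Subgroup S), N ⊓ gm S j⁆ ≤ N ⊓ gm S (j + 1) := by
        rw [Subgroup.commutator_le]
        intro a _ b hb
        refine ⟨?_, gm_comm' j hb.2⟩
        have h3 : ⁅a, b⁆ = a * b * a⁻¹ * b⁻¹ := rfl
        rw [h3]
        exact mul_mem ((inferInstance : N.Normal).conj_mem _ hb.1 a) (N.inv_mem hb.1)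
      refine (Subgroup.commutator_mono h2 le_rfl).trans ?_
      rw [Subgroup.commutator_comm]
      refine (ih (j + 1) (by omega)).trans ?_
      rw [show i + (j + 1) = i + 1 + j by omega]
    · refine Subgroup.commutator_mono ?_ le_rfl
      rw [Subgroup.commutator_le]
      intro b hb a ha
      refine ⟨?_, ?_⟩
      · have h3 : ⁅b, a⁆ = b * (a * b⁻¹ * a⁻¹) := by
          rw [commutatorElement_def]
          group
        rw [h3]
        exact mul_mem hb.1 ((inferInstance : N.Normal).conj_mem _ (N.inv_mem hb.1) a)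
      · have h4 := cm2 hj (by omega : 1 ≤ i + 1) hb.2 ha
        rw [show j + (i + 1) = i + 1 + j by omega] at h4
        exact h4

variable (N : Subgroup S) (m : ℕ)

/-- the subgroup modulo which everything is taken -/
def Qp : Subgroup S := ⁅N ⊓ gm S (m + 1), ⊤⁆

/-- it contains the commutators with the kernel, central modulo `Qp` -/
def Qc : Subgroup S := ⁅N ⊓ gm S m, ⊤⁆

variable [N.Normal]

instance qp_normal : (Qp N m).Normal := by
  unfold Qp
  infer_instance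

instance qq_normal : (Qc N m).Normal := by
  unfold Qc
  infer_instance

/-- the classes -/
def pq : S →* S ⧸ Qp N m := QuotientGroup.mk' (Qp N m)

theorem pq_one {s : S} : pq N m s = 1 ↔ s ∈ Qp N m := QuotientGroup.eq_one_iff s

omit [N.Normal] in
theorem qp_qq : Qp N m ≤ Qc N m :=
  Subgroup.commutator_mono (inf_le_inf le_rfl (gm_anti m)) le_rfl

theorem qq_le : Qc N m ≤ N ⊓ gm S (m + 1) := by
  unfold Qc
  rw [Subgroup.commutator_le]
  intro b hb a _
  refine ⟨?_, gm_comm m hb.2⟩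
  have h3 : ⁅b, a⁆ = b * (a * b⁻¹ * a⁻¹) := by
    rw [commutatorElement_def]
    group
  rw [h3]
  exact mul_mem hb.1 ((inferInstance : N.Normal).conj_mem _ (inv_mem hb.1) a)

variable {N m}

/-- the classes of `Qc` are central -/
theorem qq_cen {t : S} (ht : t ∈ Qc N m) (s : S) :
    pq N m t * pq N m s = pq N m s * pq N m t := by
  have h1 : ⁅t, s⁆ ∈ Qp N m :=
    Subgroup.commutator_mem_commutator (qq_le N m ht) (Subgroup.mem_top s)
  have h2 := (pq_one N m).2 h1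
  rw [map_commutatorElement, commutatorElement_eq_one_iff_mul_comm] at h2
  exact h2

theorem qq_cen' {t : S} (ht : t ∈ Qc N m) (g : S ⧸ Qp N m) : pq N m t * g = g * pq N m t := by
  obtain ⟨s, rfl⟩ := QuotientGroup.mk'_surjective _ g
  exact qq_cen ht s

theorem qq_conj {t : S} (ht : t ∈ Qc N m) (s : S) :
    pq N m (s * t * s⁻¹) = pq N m t := by
  rw [map_mul, map_mul, map_inv, ← qq_cen ht s, mul_inv_cancel_right]

theorem mem_qq {i j : ℕ} (hj : 1 ≤ j) (h : m ≤ i + j) {u n : S} (hu : u ∈ gm S (i + 1))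
    (hn : n ∈ N ⊓ gm S j) : ⁅u, n⁆ ∈ Qc N m := by
  refine Subgroup.commutator_mono ?_ le_rfl
    (cm_le N i j hj (Subgroup.commutator_mem_commutator hu hn))
  exact inf_le_inf le_rfl (gm_le h)

theorem mem_qp {i j : ℕ} (hj : 1 ≤ j) (h : m + 1 ≤ i + j) {u n : S} (hu : u ∈ gm S (i + 1))
    (hn : n ∈ N ⊓ gm S j) : ⁅u, n⁆ ∈ Qp N m := by
  refine Subgroup.commutator_mono ?_ le_rfl
    (cm_le N i j hj (Subgroup.commutator_mem_commutator hu hn))
  exact inf_le_inf le_rfl (gm_le h)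

theorem pq_mul_l {i j : ℕ} (hj : 1 ≤ j) (h : m ≤ i + j) {u u' n : S}
    (hu' : u' ∈ gm S (i + 1)) (hn : n ∈ N ⊓ gm S j) :
    pq N m ⁅u * u', n⁆ = pq N m ⁅u, n⁆ * pq N m ⁅u', n⁆ := by
  have h1 : ⁅u * u', n⁆ = (u * ⁅u', n⁆ * u⁻¹) * ⁅u, n⁆ := by
    simp only [commutatorElement_def]
    group
  have h2 := mem_qq (m := m) hj h hu' hn
  rw [h1, map_mul, qq_conj h2, qq_cen h2]

theorem pq_inv_l {i j : ℕ} (hj : 1 ≤ j) (h : m ≤ i + j) {u n : S}
    (hu : u ∈ gm S (i + 1)) (hn : n ∈ N ⊓ gm S j) :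
    pq N m ⁅u⁻¹, n⁆ = (pq N m ⁅u, n⁆)⁻¹ := by
  have h1 := pq_mul_l (m := m) hj h (u := u) (inv_mem hu) hn
  rw [mul_inv_cancel, commutatorElement_one_left, map_one] at h1
  exact (inv_eq_of_mul_eq_one_right h1.symm).symm

theorem pq_mul_r {i j : ℕ} (hj : 1 ≤ j) (h : m ≤ i + j) {u n n' : S}
    (hu : u ∈ gm S (i + 1)) (hn' : n' ∈ N ⊓ gm S j) :
    pq N m ⁅u, n * n'⁆ = pq N m ⁅u, n⁆ * pq N m ⁅u, n'⁆ := by
  have h1 : ⁅u, n * n'⁆ = ⁅u, n⁆ * (n * ⁅u, n'⁆ * n⁻¹) := by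
    simp only [commutatorElement_def]
    group
  have h2 := mem_qq (m := m) hj h hu hn'
  rw [h1, map_mul, qq_conj h2]

/-- Hall-Witt -/
theorem pq_jac {i j : ℕ} (hi : 1 ≤ i) (hj : 1 ≤ j) (h : i + j = m) {a s n : S} (ha : a ∈ gm S i)
    (hn : n ∈ N ⊓ gm S j) :
    pq N m ⁅⁅a, s⁆, n⁆ = pq N m ⁅a, ⁅s, n⁆⁆ * (pq N m ⁅s, ⁅a, n⁆⁆)⁻¹ := by
  have hm : 1 ≤ m := by omega
  obtain ⟨i', rfl⟩ : ∃ i', i = i' + 1 := ⟨i - 1, by omega⟩
  have hN : ∀ g : S, ∀ b ∈ N, ⁅g, b⁆ ∈ N := by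
    intro g b hb
    have h3 : ⁅g, b⁆ = g * b * g⁻¹ * b⁻¹ := rfl
    rw [h3]
    exact mul_mem ((inferInstance : N.Normal).conj_mem _ hb g) (inv_mem hb)
  -- `D = ⁅s, n⁆`, `E = ⁅a, n⁆`
  have hD : ⁅s, n⁆ ∈ N ⊓ gm S (j + 1) := ⟨hN s n hn.1, gm_comm' j hn.2⟩
  have hE : ⁅a, n⁆ ∈ N ⊓ gm S m := ⟨hN a n hn.1, by
    have := cm2 (by omega : 1 ≤ i' + 1) hj ha hn.2
    rw [h] at this
    exact this⟩
  have hG : ⁅a, s⁆ ∈ gm S (i' + 1 + 1) := gm_comm (i' + 1) ha
  have hC1 : ⁅a, ⁅s, n⁆⁆ ∈ Qc N m := mem_qq (m := m) (j := j + 1) (by omega) (by omega) ha hD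
  have hC2 : ⁅s, ⁅a, n⁆⁆ ∈ Qc N m :=
    mem_qq (m := m) (i := 0) (j := m) hm (by omega) (by rw [zero_add, gm_one]; exact Subgroup.mem_top s) hE
  have hC3 : ⁅⁅s, n⁆, ⁅a, n⁆⁆ ∈ Qp N m :=
    mem_qp (m := m) (i := j) (j := m) hm (by omega) hD.2 hE
  -- the identity
  have key : ⁅⁅a, s⁆, ⁅s, ⁅a, n⁆⁆ * ⁅a, n⁆ * ⁅s, n⁆ * n⁆ =
      ⁅a, ⁅s, n⁆⁆ * ⁅⁅s, n⁆, ⁅a, n⁆⁆ * (⁅s, ⁅a, n⁆⁆)⁻¹ := by
    simp only [commutatorElement_def]
    group
  have hT : ⁅s, ⁅a, n⁆⁆ ∈ N ⊓ gm S j := by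
    refine ⟨hN _ _ hE.1, gm_le ?_ (gm_comm' m hE.2)⟩
    omega
  have e1 : pq N m ⁅⁅a, s⁆, ⁅s, ⁅a, n⁆⁆ * ⁅a, n⁆ * ⁅s, n⁆ * n⁆ = pq N m ⁅⁅a, s⁆, n⁆ := by
    have hE' : ⁅a, n⁆ ∈ N ⊓ gm S j := ⟨hE.1, gm_le (by omega) hE.2⟩
    have hD' : ⁅s, n⁆ ∈ N ⊓ gm S j := ⟨hD.1, gm_le (by omega) hD.2⟩
    rw [pq_mul_r hj (by omega : m ≤ i' + 1 + j) hG hn,
      pq_mul_r hj (by omega : m ≤ i' + 1 + j) hG hD',
      pq_mul_r hj (by omega : m ≤ i' + 1 + j) hG hE']
    have z1 : pq N m ⁅⁅a, s⁆, ⁅s, ⁅a, n⁆⁆⁆ = 1 := by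
      refine (pq_one N m).2 (mem_qp (m := m) (i := i' + 1) (j := m) hm (by omega) hG ?_)
      exact ⟨hN _ _ hE.1, gm_anti m (gm_comm' m hE.2)⟩
    have z2 : pq N m ⁅⁅a, s⁆, ⁅a, n⁆⁆ = 1 :=
      (pq_one N m).2 (mem_qp (m := m) (i := i' + 1) (j := m) hm (by omega) hG hE)
    have z3 : pq N m ⁅⁅a, s⁆, ⁅s, n⁆⁆ = 1 :=
      (pq_one N m).2 (mem_qp (m := m) (i := i' + 1) (j := j + 1) (by omega) (by omega) hG hD)
    rw [z1, z2, z3, one_mul, one_mul, one_mul]
  rw [← e1, key, map_mul, map_mul, (pq_one N m).2 hC3, mul_one, map_inv]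

end pure

section ad

variable {S P : Type} [Group S] [Group P] [MulDistribMulAction P S] {J V : Type}
  (X : AD S P J V) {p k Mw q c : ℕ} {P' : Type} [Group P'] {Pi : SP S P →* P'} {d : ℕ}

/-- the product of the blocks -/
def Pd (τ : V → S) (x : J → SP S P) : S :=
  (X.l.map fun v => τ v * (X.bk x v).left * (τ v)⁻¹).prod

/-- right values -/
def Rt (x : J → SP S P) : Prop := ∀ j ∈ X.Jf, (x j).right = X.ph (X.W j)

theorem rt_mv {x : J → SP S P} (hx : Rt X x) (u : X.Jf → S) : Rt X (X.mv u x) := fun j hj => by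
  rw [H71.S3.mv_right X u x j]
  exact hx j hj

theorem bk_rt (hX : X.Ok p k Mw q c Pi) {x : J → SP S P} (hx : Rt X x) {v : V} (hv : v ∈ X.l) :
    (X.bk x v).right = 1 := by
  have h1 : SemidirectProduct.rightHom (X.bk x v) = 1 := by
    unfold AD.bk
    rw [H71.S3.map_wd]
    have h2 := hX.hb v hv
    rw [H71.S3.map_wd] at h2
    rw [← h2]
    unfold wd
    congr 1
    refine List.map_congr_left fun i _ => ?_
    have h3 : X.ph (FreeGroup.of i) = (X.t i).right := by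
      unfold AD.ph
      rw [FreeGroup.lift_apply_of]
    beta_reduce
    rw [h3]
    by_cases hi : i ∈ X.Jf
    · show ⁅(X.t i).right, (x i).right⁆ = _
      rw [hx i hi]
    · rw [hX.t1 i hi]
      show ⁅(1 : P), (x i).right⁆ = ⁅(1 : P), X.ph (X.W i)⁆
      rw [commutatorElement_one_left, commutatorElement_one_left]
  exact h1

/-- the block at a place `pp` -/
theorem bk_pp (hX : X.Ok p k Mw q c Pi) {x : J → SP S P} (hx : Rt X x) {j : J} (hj : j ∈ X.Jf)
    (hp : X.pp j) : (X.bk x (X.pj j)).left = ⁅X.y j, (x j).left⁆ := by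
  have h3 : X.bk x (X.pj j) = ⁅X.t j, x j⁆ := by
    unfold AD.bk
    rw [hX.pb j hj hp, wd_single]
  have h4 : x j = il (x j).left := il_of (by rw [hx j hj, hX.pw j hj hp])
  rw [h3, h4, hX.pt j hj hp]
  have h5 : (⁅(il (X.y j) : SP S P), il (x j).left⁆ : SP S P) = il ⁅X.y j, (x j).left⁆ :=
    (map_commutatorElement (SemidirectProduct.inl : S →* SP S P) _ _).symm
  rw [h5]
  rfl

/-- the block at the other places -/
theorem bk_np (hX : X.Ok p k Mw q c Pi) {x y : J → SP S P} {v : V}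
    (h : ∀ i ∈ X.bl v, i ∈ X.Jf → x i = y i) : X.bk x v = X.bk y v := by
  unfold AD.bk wd
  congr 1
  refine List.map_congr_left fun i hi => ?_
  by_cases hJ : i ∈ X.Jf
  · rw [h i hi hJ]
  · rw [hX.t1 i hJ, commutatorElement_one_left, commutatorElement_one_left]

theorem bk_nks (hX : X.Ok p k Mw q c Pi) {x : J → SP S P} (hx : Rt X x) (hG : X.G x) {v : V}
    (hv : v ∈ X.l) : (X.bk x v).left ∈ Nks Pi := by
  rw [mem_nks, ← il_of (bk_rt X hX hx hv)]
  exact hX.gb x hx hG v hv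

/-- a changed commutator -/
theorem cmx (t x : SP S P) (u : S) :
    ⁅t, il u * x⁆ = il (cjl t u * cjl ⁅t, x⁆ u⁻¹) * ⁅t, x⁆ := by
  have h1 : ⁅t, il u * x⁆ = (t * il u * t⁻¹) * (⁅t, x⁆ * il u⁻¹ * ⁅t, x⁆⁻¹) * ⁅t, x⁆ := by
    rw [il_inv]
    simp only [commutatorElement_def]
    group
  rw [h1, cjl_il, cjl_il, ← il_mul]

/-- the change of a block -/
theorem bk_ch (hX : X.Ok p k Mw q c Pi) {x : J → SP S P} (hx : Rt X x) {u : X.Jf → S}
    (hu : ∀ j : X.Jf, u j ∈ gm S (if X.pp j then d + 1 else d + 2)) {v : V} (hv : v ∈ X.l) :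
    ∃ w ∈ gm S (d + 2), (X.bk (X.mv u x) v).left = w * (X.bk x v).left := by
  by_cases hp : X.ppl v
  · obtain ⟨j, hj, hpp, rfl⟩ := hp
    rw [bk_pp X hX (rt_mv X hx u) hj hpp, bk_pp X hX hx hj hpp]
    have h1 : (X.mv u x j).left = u ⟨j, hj⟩ * (x j).left := by
      unfold AD.mv
      rw [dif_pos hj]
      have h2 : (il (u ⟨j, hj⟩) * x j : SP S P).left =
          u ⟨j, hj⟩ * ((1 : P) • (x j).left) := rfl
      rw [h2, one_smul]
    have h3 := hu ⟨j, hj⟩
    rw [if_pos hpp] at h3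
    rw [h1]
    refine ⟨⁅X.y j, u ⟨j, hj⟩⁆ * ⁅u ⟨j, hj⟩, ⁅X.y j, (x j).left⁆⁆, ?_, ?_⟩
    · exact mul_mem (gm_comm' (d + 1) h3) (gm_comm (d + 1) h3)
    · simp only [commutatorElement_def]
      group
  · have hn : ∀ i ∈ X.bl v, ∀ h : i ∈ X.Jf, ¬X.pp i := fun i hi hJ hpi =>
      hp ⟨i, hJ, hpi, hX.bp v i hi⟩
    have key : ∀ L : List J, (∀ i ∈ L, i ∈ X.bl v) → ∃ w ∈ gm S (d + 2),
        wd X.t (X.mv u x) L = il w * wd X.t x L := by
      intro L
      induction L with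
      | nil =>
        intro _
        exact ⟨1, one_mem _, by rw [il_one, one_mul]; rfl⟩
      | cons i L ih =>
        intro hL
        obtain ⟨w, hw, e⟩ := ih fun i hi => hL i (List.mem_cons_of_mem _ hi)
        have e1 : ∃ w₁ ∈ gm S (d + 2), ⁅X.t i, X.mv u x i⁆ = il w₁ * ⁅X.t i, x i⁆ := by
          by_cases hJ : i ∈ X.Jf
          · have h3 := hu ⟨i, hJ⟩
            rw [if_neg (hn i (hL i List.mem_cons_self) hJ)] at h3
            refine ⟨_, mul_mem (cjl_mem (X.t i) h3) (cjl_mem ⁅X.t i, x i⁆ (inv_mem h3)), ?_⟩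
            rw [← cmx]
            unfold AD.mv
            rw [dif_pos hJ]
          · refine ⟨1, one_mem _, ?_⟩
            rw [hX.t1 i hJ, commutatorElement_one_left, commutatorElement_one_left, il_one,
              one_mul]
        obtain ⟨w₁, hw₁, e1⟩ := e1
        refine ⟨w₁ * cjl ⁅X.t i, x i⁆ w, mul_mem hw₁ (cjl_mem _ hw), ?_⟩
        have h5 : ∀ y : J → SP S P, wd X.t y (i :: L) = ⁅X.t i, y i⁆ * wd X.t y L := fun y => by
          unfold wd
          rw [List.map_cons, List.prod_cons]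
        rw [h5, h5, e, e1, il_mul, ← cjl_il]
        group
    obtain ⟨w, hw, e⟩ := key (X.bl v) fun _ h => h
    refine ⟨w, hw, ?_⟩
    have h6 : X.bk (X.mv u x) v = il w * X.bk x v := e
    rw [h6]
    show w * ((1 : P) • (X.bk x v).left) = _
    rw [one_smul]

/-- one factor is changed -/
theorem prod_one {C : Type} [Group C] {l : List V} (hl : l.Nodup) {v₀ : V} (h0 : v₀ ∈ l)
    {f f' : V → C} {z : C} (hz : ∀ g : C, z * g = g * z) (h1 : ∀ v ∈ l, v ≠ v₀ → f' v = f v)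
    (h2 : f' v₀ = z * f v₀) : (l.map f').prod = z * (l.map f).prod := by
  induction l with
  | nil => exact absurd h0 List.not_mem_nil
  | cons a l ih =>
    rw [List.nodup_cons] at hl
    rw [List.map_cons, List.map_cons, List.prod_cons, List.prod_cons]
    rcases List.mem_cons.1 h0 with h | h
    · subst h
      rw [h2, mul_assoc]
      congr 2
      exact congrArg List.prod (List.map_congr_left fun v hv => h1 v (List.mem_cons_of_mem _ hv)
        fun e => hl.1 (e ▸ hv))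
    · have ha : a ≠ v₀ := fun e => hl.1 (e ▸ h)
      rw [h1 a List.mem_cons_self ha, ih hl.2 h fun v hv => h1 v (List.mem_cons_of_mem _ hv),
        ← mul_assoc, ← hz, mul_assoc]

/-- central factors -/
theorem prod_cen {C : Type} [Group C] (l : List V) {f g : V → C}
    (hz : ∀ v ∈ l, ∀ x : C, f v * x = x * f v) :
    (l.map fun v => f v * g v).prod = (l.map f).prod * (l.map g).prod := by
  induction l with
  | nil => simp
  | cons a l ih =>
    rw [List.map_cons, List.map_cons, List.map_cons, List.prod_cons, List.prod_cons,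
      List.prod_cons, ih fun v hv => hz v (List.mem_cons_of_mem _ hv)]
    have h1 := hz a List.mem_cons_self
    have h2 : ∀ x : C, (l.map f).prod * x = x * (l.map f).prod := by
      have : ∀ l' : List V, (∀ v ∈ l', v ∈ a :: l) → ∀ x : C,
          (l'.map f).prod * x = x * (l'.map f).prod := by
        intro l'
        induction l' with
        | nil => intro _ x; simp
        | cons b l' ih' =>
          intro hb x
          rw [List.map_cons, List.prod_cons, mul_assoc,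
            ih' (fun v hv => hb v (List.mem_cons_of_mem _ hv)) x, ← mul_assoc,
            hz b (hb b List.mem_cons_self) x, mul_assoc]
      exact this l fun v hv => List.mem_cons_of_mem _ hv
    rw [mul_assoc (f a) (g a), ← mul_assoc (g a), ← h2 (g a)]
    simp only [mul_assoc]

/-- the changes `n` in the kernel multiply the product of the blocks by `t`, and `pr η n = a` -/
def Lm (Pi : SP S P →* P') (η : X.Jf → Du S q (d + 1) × Du S q (d + 1 + 1)) (t : S)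
    (a : ZMod q) : Prop :=
  t ∈ Qc (Nks Pi) (d + 1) ∧ ∃ n : X.Jf → S, (∀ j, n j ∈ Nks Pi ⊓ gm S (d + 1)) ∧
    (∀ j : X.Jf, ¬X.pp j → n j = 1) ∧ X.pr η n = a ∧
    ∀ y : J → SP S P, Rt X y → ∀ τ : V → S,
      pq (Nks Pi) (d + 1) (Pd X τ (X.mv n y)) =
        pq (Nks Pi) (d + 1) t * pq (Nks Pi) (d + 1) (Pd X τ y)

variable {X}

theorem mv_mul (u w : X.Jf → S) (x : J → SP S P) : X.mv (fun j => u j * w j) x = X.mv u (X.mv w x) := by
  funext j
  unfold AD.mv
  by_cases hj : j ∈ X.Jf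
  · rw [dif_pos hj, dif_pos hj, dif_pos hj, il_mul, mul_assoc]
  · rw [dif_neg hj, dif_neg hj, dif_neg hj]

theorem pr_mul' (η : X.Jf → Du S q (d + 1) × Du S q (d + 1 + 1)) {u w : X.Jf → S}
    (hu : ∀ j : X.Jf, u j ∈ gm S (if X.pp j then d + 1 else d + 1 + 1))
    (hw : ∀ j : X.Jf, w j ∈ gm S (if X.pp j then d + 1 else d + 1 + 1)) :
    X.pr η (fun j => u j * w j) = X.pr η u + X.pr η w := by
  unfold AD.pr
  rw [← Finset.sum_add_distrib]
  refine Finset.sum_congr rfl fun j _ => ?_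
  have h1 := hu j
  have h2 := hw j
  by_cases hp : X.pp j
  · rw [if_pos hp] at h1 h2
    rw [if_pos hp, if_pos hp, if_pos hp, gk_mul h1 h2, map_add]
  · rw [if_neg hp] at h1 h2
    rw [if_neg hp, if_neg hp, if_neg hp, gk_mul h1 h2, map_add]

theorem ng {n : X.Jf → S} (h1 : ∀ j, n j ∈ Nks Pi ⊓ gm S (d + 1)) (h2 : ∀ j : X.Jf, ¬X.pp j → n j = 1)
    (j : X.Jf) : n j ∈ gm S (if X.pp j then d + 1 else d + 1 + 1) := by
  by_cases hp : X.pp j
  · rw [if_pos hp]
    exact (h1 j).2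
  · rw [if_neg hp, h2 j hp]
    exact one_mem _

theorem Lm.mul {η : X.Jf → Du S q (d + 1) × Du S q (d + 1 + 1)} {t t' : S} {a a' : ZMod q}
    (h : Lm X Pi η t a) (h' : Lm X Pi η t' a') : Lm X Pi η (t * t') (a + a') := by
  obtain ⟨h0, n, h1, h2, h3, h4⟩ := h
  obtain ⟨h0', n', h1', h2', h3', h4'⟩ := h'
  refine ⟨mul_mem h0 h0', fun j => n j * n' j, fun j => mul_mem (h1 j) (h1' j), fun j hj => ?_, ?_,
    fun y hy τ => ?_⟩
  · beta_reduce
    rw [h2 j hj, h2' j hj, mul_one]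
  · rw [pr_mul' η (ng h1 h2) (ng h1' h2'), h3, h3']
  · rw [mv_mul, h4 _ (rt_mv X hy n') τ, h4' y hy τ, map_mul, mul_assoc]

theorem Lm.inv {η : X.Jf → Du S q (d + 1) × Du S q (d + 1 + 1)} {t : S} {a : ZMod q}
    (h : Lm X Pi η t a) : Lm X Pi η t⁻¹ (-a) := by
  obtain ⟨h0, n, h1, h2, h3, h4⟩ := h
  refine ⟨inv_mem h0, fun j => (n j)⁻¹, fun j => inv_mem (h1 j), fun j hj => ?_, ?_,
    fun y hy τ => ?_⟩
  · beta_reduce
    rw [h2 j hj, inv_one]
  · have e1 := pr_mul' η (ng h1 h2) (w := fun j => (n j)⁻¹)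
      (ng (fun j => inv_mem (h1 j)) fun j hj => by rw [h2 j hj, inv_one])
    have e2 : X.pr η (fun j => n j * (n j)⁻¹) = 0 := by
      unfold AD.pr
      refine Finset.sum_eq_zero fun j _ => ?_
      beta_reduce
      rw [mul_inv_cancel, gk_one, gk_one, map_zero, map_zero, ite_self]
    rw [e2, h3] at e1
    exact (neg_eq_of_add_eq_zero_right e1.symm).symm
  · have e1 := h4 _ (rt_mv X hy fun j => (n j)⁻¹) τ
    rw [← mv_mul] at e1
    have e2 : X.mv (fun j => n j * (n j)⁻¹) y = y := by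
      funext j
      unfold AD.mv
      by_cases hj : j ∈ X.Jf
      · rw [dif_pos hj]
        beta_reduce
        rw [mul_inv_cancel, il_one, one_mul]
      · rw [dif_neg hj]
    rw [e2] at e1
    rw [e1, map_inv, inv_mul_cancel_left]

theorem Lm.cong {η : X.Jf → Du S q (d + 1) × Du S q (d + 1 + 1)} {t t' : S} {a : ZMod q}
    (h : Lm X Pi η t a) (h0' : t' ∈ Qc (Nks Pi) (d + 1))
    (e : pq (Nks Pi) (d + 1) t' = pq (Nks Pi) (d + 1) t) : Lm X Pi η t' a := by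
  obtain ⟨h0, n, h1, h2, h3, h4⟩ := h
  refine ⟨h0', n, h1, h2, h3, fun y hy τ => ?_⟩
  rw [e]
  exact h4 y hy τ

theorem lm_one (η : X.Jf → Du S q (d + 1) × Du S q (d + 1 + 1)) {t : S}
    (ht : t ∈ Qp (Nks Pi) (d + 1)) : Lm X Pi η t 0 := by
  refine ⟨qp_qq (Nks Pi) (d + 1) ht, fun _ => 1, fun j => one_mem _, fun _ _ => rfl, ?_,
    fun y hy τ => ?_⟩
  · unfold AD.pr
    refine Finset.sum_eq_zero fun j _ => ?_
    rw [gk_one, gk_one, map_zero, map_zero, ite_self]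
  · have e2 : X.mv (fun _ => 1) y = y := by
      funext j
      unfold AD.mv
      by_cases hj : j ∈ X.Jf
      · rw [dif_pos hj, il_one, one_mul]
      · rw [dif_neg hj]
    rw [e2, (pq_one _ _).2 ht, one_mul]

/-- one letter `pp` -/
theorem lm_y (hX : X.Ok p k Mw q c Pi) (Bf : ∀ i j : ℕ, Gr S i →+ Gr S j →+ ZMod q)
    (η : X.Jf → Du S q (d + 1) × Du S q (d + 1 + 1))
    (hη : ∀ j : X.Jf, X.pp j → ∀ z, (η j).1.ap z = Bf 1 (d + 1) (gk 1 (X.y j)) z)
    {j : J} (hj : j ∈ X.Jf) (hp : X.pp j) {n : S} (hn : n ∈ Nks Pi ⊓ gm S (d + 1)) :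
    Lm X Pi η ⁅X.y j, n⁆ (Bf 1 (d + 1) (gk 1 (X.y j)) (gk (d + 1) n)) := by
  have hQ : ⁅X.y j, n⁆ ∈ Qc (Nks Pi) (d + 1) :=
    mem_qq (m := d + 1) (i := 0) (j := d + 1) (by omega) (by omega)
      (by rw [zero_add, gm_one]; exact Subgroup.mem_top _) hn
  refine ⟨hQ, fun i => if i = (⟨j, hj⟩ : X.Jf) then n else 1, fun i => ?_, fun i hi => ?_, ?_,
    fun y hy τ => ?_⟩
  · beta_reduce
    split_ifs
    · exact hn
    · exact one_mem _
  · refine if_neg fun e => hi ?_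
    rw [e]
    exact hp
  · unfold AD.pr
    rw [Finset.sum_eq_single (⟨j, hj⟩ : X.Jf)]
    · rw [if_pos hp]
      beta_reduce
      rw [if_pos rfl]
      exact hη ⟨j, hj⟩ hp _
    · intro i _ hi
      beta_reduce
      rw [if_neg hi, gk_one, gk_one, map_zero, map_zero, ite_self]
    · intro h
      exact absurd (Finset.mem_univ _) h
  · set u : X.Jf → S := fun i => if i = (⟨j, hj⟩ : X.Jf) then n else 1 with hu
    have hl := (hX.jl j hj).1
    have e0 : ∀ i, i ≠ j → X.mv u y i = y i := fun i hi => by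
      unfold AD.mv
      by_cases hi' : i ∈ X.Jf
      · rw [dif_pos hi', hu]
        beta_reduce
        rw [if_neg fun e => hi (congrArg Subtype.val e), il_one, one_mul]
      · rw [dif_neg hi']
    have e1 : ∀ v, v ≠ X.pj j → X.bk (X.mv u y) v = X.bk y v := fun v hv => by
      refine bk_np X hX fun i hi _ => e0 i fun e => hv ?_
      rw [← hX.bp v i hi, e]
    have e2 : (X.mv u y j).left = n * (y j).left := by
      unfold AD.mv
      rw [dif_pos hj, hu]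
      beta_reduce
      rw [if_pos rfl]
      show n * ((1 : P) • (y j).left) = _
      rw [one_smul]
    have e3 : ⁅X.y j, n * (y j).left⁆ = ⁅X.y j, n⁆ * ⁅n, ⁅X.y j, (y j).left⁆⁆ *
        ⁅X.y j, (y j).left⁆ := by
      simp only [commutatorElement_def]
      group
    have e4 : ⁅n, ⁅X.y j, (y j).left⁆⁆ ∈ Qp (Nks Pi) (d + 1) := by
      rw [← commutatorElement_inv]
      refine inv_mem (mem_qp (m := d + 1) (i := 1) (j := d + 1) (by omega) (by omega) ?_ hn)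
      exact gm_comm 1 (by rw [gm_one]; exact Subgroup.mem_top _)
    unfold Pd
    rw [map_list_prod, map_list_prod, List.map_map, List.map_map]
    refine prod_one hX.nd hl (v₀ := X.pj j) (qq_cen' hQ) ?_ ?_
    · intro v _ hv
      show pq _ _ _ = pq _ _ _
      beta_reduce
      rw [e1 v hv]
    · show pq _ _ _ = pq _ _ _ * pq _ _ _
      beta_reduce
      have e5 : ∀ a b : S, τ (X.pj j) * (a * b) * (τ (X.pj j))⁻¹ =
          (τ (X.pj j) * a * (τ (X.pj j))⁻¹) * (τ (X.pj j) * b * (τ (X.pj j))⁻¹) := fun a b => by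
        group
      rw [bk_pp X hX (rt_mv X hy u) hj hp, bk_pp X hX hy hj hp, e2, e3, e5, map_mul, e5, map_mul,
        qq_conj hQ, (pq_one _ _).2 ((qp_normal _ _).conj_mem _ e4 _), mul_one]

/-- the layer `1` -/
theorem lm_s (hX : X.Ok p k Mw q c Pi) (Bf : ∀ i j : ℕ, Gr S i →+ Gr S j →+ ZMod q)
    (η : X.Jf → Du S q (d + 1) × Du S q (d + 1 + 1))
    (hη : ∀ j : X.Jf, X.pp j → ∀ z, (η j).1.ap z = Bf 1 (d + 1) (gk 1 (X.y j)) z)
    (s : S) {j : ℕ} (hj : j = d + 1) {n : S} (hn : n ∈ Nks Pi ⊓ gm S j) :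
    Lm X Pi η ⁅s, n⁆ (Bf 1 j (gk 1 s) (gk j n)) := by
  subst hj
  have hQ : ∀ s : S, ⁅s, n⁆ ∈ Qc (Nks Pi) (d + 1) := fun s =>
    mem_qq (m := d + 1) (i := 0) (j := d + 1) (by omega) (by omega)
      (by rw [zero_add, gm_one]; exact Subgroup.mem_top _) hn
  have hT : ∀ s : S, s ∈ gm S 1 := fun s => by rw [gm_one]; exact Subgroup.mem_top _
  let T : Subgroup S :=
    { carrier := {s | Lm X Pi η ⁅s, n⁆ (Bf 1 (d + 1) (gk 1 s) (gk (d + 1) n))}
      one_mem' := by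
        show Lm X Pi η ⁅1, n⁆ _
        rw [commutatorElement_one_left, gk_one, map_zero, AddMonoidHom.zero_apply]
        exact lm_one η (one_mem _)
      mul_mem' := by
        intro a b ha hb
        have h1 := Lm.mul ha hb
        show Lm X Pi η ⁅a * b, n⁆ _
        rw [gk_mul (hT a) (hT b), map_add, AddMonoidHom.add_apply]
        refine h1.cong (hQ _) ?_
        rw [map_mul]
        exact pq_mul_l (m := d + 1) (i := 0) (j := d + 1) (by omega) (by omega) (hT b) hn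
      inv_mem' := by
        intro a ha
        have h1 := Lm.inv ha
        show Lm X Pi η ⁅a⁻¹, n⁆ _
        rw [gk_inv (hT a), map_neg, AddMonoidHom.neg_apply]
        refine h1.cong (hQ _) ?_
        rw [map_inv]
        exact pq_inv_l (m := d + 1) (i := 0) (j := d + 1) (by omega) (by omega) (hT a) hn }
  have h1 : (⊤ : Subgroup S) ≤ T := by
    rw [← hX.gen, sup_le_iff, Subgroup.closure_le]
    refine ⟨?_, fun s hs => ?_⟩
    · rintro _ ⟨j, hj, hp, rfl⟩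
      exact lm_y hX Bf η hη hj hp hn
    · have h2 : s ∈ gm S 2 := hs
      show Lm X Pi η ⁅s, n⁆ _
      rw [(gk_zero (hT s)).2 h2, map_zero, AddMonoidHom.zero_apply]
      exact lm_one η (mem_qp (m := d + 1) (i := 1) (j := d + 1) (by omega) (by omega) h2 hn)
  exact h1 (Subgroup.mem_top s)

/-- `Lm` at the commutators with the kernel -/
theorem lm_all (hX : X.Ok p k Mw q c Pi)
    (Bf : ∀ i j : ℕ, Gr S i →+ Gr S j →+ ZMod q)
    (hjac : ∀ i j k : ℕ, 1 ≤ i → 1 ≤ j → 1 ≤ k → i + j + k = d + 2 → ∀ u ∈ gm S i,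
      ∀ v ∈ gm S j, ∀ w ∈ gm S k, Bf (i + j) k (gk (i + j) ⁅u, v⁆) (gk k w) =
        Bf i (j + k) (gk i u) (gk (j + k) ⁅v, w⁆) - Bf j (i + k) (gk j v) (gk (i + k) ⁅u, w⁆))
    (η : X.Jf → Du S q (d + 1) × Du S q (d + 1 + 1))
    (hη : ∀ j : X.Jf, X.pp j → ∀ z, (η j).1.ap z = Bf 1 (d + 1) (gk 1 (X.y j)) z)
    (i : ℕ) : ∀ j : ℕ, 1 ≤ j → i + 1 + j = d + 2 → ∀ u ∈ gm S (i + 1), ∀ n ∈ Nks Pi ⊓ gm S j,
      Lm X Pi η ⁅u, n⁆ (Bf (i + 1) j (gk (i + 1) u) (gk j n)) := by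
  induction i with
  | zero =>
    intro j _ h u _ n hn
    exact lm_s hX Bf η hη u (by omega) hn
  | succ i ih =>
    intro j hj h u hu n hn
    have hN : ∀ g : S, ∀ b ∈ Nks Pi, ⁅g, b⁆ ∈ Nks Pi := by
      intro g b hb
      have h3 : ⁅g, b⁆ = g * b * g⁻¹ * b⁻¹ := rfl
      rw [h3]
      exact mul_mem ((nks_normal Pi).conj_mem _ hb g) (inv_mem hb)
    have hQ : ∀ u ∈ gm S (i + 1 + 1), ⁅u, n⁆ ∈ Qc (Nks Pi) (d + 1) := fun u hu =>
      mem_qq (m := d + 1) (i := i + 1) (j := j) hj (by omega) hu hn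
    let T : Subgroup S :=
      { carrier := {s | s ∈ gm S (i + 1 + 1) ∧
          Lm X Pi η ⁅s, n⁆ (Bf (i + 1 + 1) j (gk (i + 1 + 1) s) (gk j n))}
        one_mem' := by
          refine ⟨one_mem _, ?_⟩
          rw [commutatorElement_one_left, gk_one, map_zero, AddMonoidHom.zero_apply]
          exact lm_one η (one_mem _)
        mul_mem' := by
          intro a b ha hb
          have h1 := Lm.mul ha.2 hb.2
          refine ⟨mul_mem ha.1 hb.1, ?_⟩
          rw [gk_mul ha.1 hb.1, map_add, AddMonoidHom.add_apply]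
          refine h1.cong (hQ _ (mul_mem ha.1 hb.1)) ?_
          rw [map_mul]
          exact pq_mul_l (m := d + 1) (i := i + 1) (j := j) hj (by omega) hb.1 hn
        inv_mem' := by
          intro a ha
          have h1 := Lm.inv ha.2
          refine ⟨inv_mem ha.1, ?_⟩
          rw [gk_inv ha.1, map_neg, AddMonoidHom.neg_apply]
          refine h1.cong (hQ _ (inv_mem ha.1)) ?_
          rw [map_inv]
          exact pq_inv_l (m := d + 1) (i := i + 1) (j := j) hj (by omega) ha.1 hn }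
    have h1 : gm S (i + 1 + 1) ≤ T := by
      have h2 : gm S (i + 1 + 1) = ⁅gm S (i + 1), ⊤⁆ := gm_succ (i + 1) (by omega)
      rw [h2, Subgroup.commutator_le]
      intro a ha s _
      have hG : ⁅a, s⁆ ∈ gm S (i + 1 + 1) := gm_comm (i + 1) ha
      refine ⟨hG, ?_⟩
      have hD : ⁅s, n⁆ ∈ Nks Pi ⊓ gm S (1 + j) := ⟨hN s n hn.1, by
        rw [add_comm]
        exact gm_comm' j hn.2⟩
      have hE : ⁅a, n⁆ ∈ Nks Pi ⊓ gm S (i + 1 + j) := ⟨hN a n hn.1,
        cm2 (by omega) hj ha hn.2⟩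
      have h3 := ih (1 + j) (by omega) (by omega) a ha ⁅s, n⁆ hD
      have h4 := lm_s hX Bf η hη s (j := i + 1 + j) (by omega) hE
      have h5 := h3.mul h4.inv
      have h6 := hjac (i + 1) 1 j (by omega) le_rfl hj (by omega) a ha s
        (by rw [gm_one]; exact Subgroup.mem_top _) n hn.2
      rw [← sub_eq_add_neg, ← h6] at h5
      refine h5.cong (hQ _ hG) ?_
      rw [map_mul, map_inv]
      exact pq_jac (m := d + 1) (i := i + 1) (j := j) (by omega) hj (by omega) ha hn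
    exact (h1 hu).2

/-- the form with two indices -/
theorem lm_ij (hX : X.Ok p k Mw q c Pi)
    (Bf : ∀ i j : ℕ, Gr S i →+ Gr S j →+ ZMod q)
    (hjac : ∀ i j k : ℕ, 1 ≤ i → 1 ≤ j → 1 ≤ k → i + j + k = d + 2 → ∀ u ∈ gm S i,
      ∀ v ∈ gm S j, ∀ w ∈ gm S k, Bf (i + j) k (gk (i + j) ⁅u, v⁆) (gk k w) =
        Bf i (j + k) (gk i u) (gk (j + k) ⁅v, w⁆) - Bf j (i + k) (gk j v) (gk (i + k) ⁅u, w⁆))
    (η : X.Jf → Du S q (d + 1) × Du S q (d + 1 + 1))
    (hη : ∀ j : X.Jf, X.pp j → ∀ z, (η j).1.ap z = Bf 1 (d + 1) (gk 1 (X.y j)) z)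
    {i j : ℕ} (hi : 1 ≤ i) (hj : 1 ≤ j) (h : i + j = d + 2) {u n : S} (hu : u ∈ gm S i)
    (hn : n ∈ Nks Pi ⊓ gm S j) : Lm X Pi η ⁅u, n⁆ (Bf i j (gk i u) (gk j n)) := by
  obtain ⟨i, rfl⟩ : ∃ i', i = i' + 1 := ⟨i - 1, by omega⟩
  exact lm_all hX Bf hjac η hη i j hj h u hu n hn

theorem Lm.list {η : X.Jf → Du S q (d + 1) × Du S q (d + 1 + 1)} (l : List V) {f : V → S}
    {a : V → ZMod q} (h : ∀ v ∈ l, Lm X Pi η (f v) (a v)) :
    Lm X Pi η (l.map f).prod (l.map a).sum := by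
  induction l with
  | nil => exact lm_one η (one_mem _)
  | cons v l ih =>
    rw [List.map_cons, List.map_cons, List.prod_cons, List.sum_cons]
    exact (h v List.mem_cons_self).mul (ih fun w hw => h w (List.mem_cons_of_mem _ hw))

theorem cg_shift [Fintype S] {m : ℕ} {w : X.Jf → S} (hw : w ∈ X.Cg m) (F : (X.Jf → S) → ℂ) :
    ∑ u ∈ X.Cg m, F (w * u) = ∑ u ∈ X.Cg m, F u := by
  refine Finset.sum_bij' (fun u _ => w * u) (fun u _ => w⁻¹ * u) (fun u hu => cg_mul X hw hu)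
    (fun u hu => cg_mul X (cg_inv X hw) hu) (fun u _ => inv_mul_cancel_left w u)
    (fun u _ => mul_inv_cancel_left w u) fun u _ => rfl

theorem cg_mem [Fintype S] {m : ℕ} {u : X.Jf → S} :
    u ∈ X.Cg m ↔ ∀ j : X.Jf, u j ∈ gm S (if X.pp j then m else m + 1) := by
  unfold AD.Cg
  rw [Finset.mem_filter]
  exact ⟨fun h => h.2, fun h => ⟨Finset.mem_univ _, h⟩⟩

variable (X) in
/-- the sum over all changes -/
def Sm [Fintype S] [NeZero q] (Pi : SP S P →* P') (τ : V → S) (x : J → SP S P)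
    (η : X.Jf → Du S q (d + 1) × Du S q (d + 1 + 1)) : ℂ :=
  ∑ u ∈ X.Cg (d + 1), (if X.G (X.mv u x) ∧ pq (Nks Pi) (d + 1) (Pd X τ (X.mv u x)) = 1 then
    (1 : ℂ) else 0) * H63.MA.ep q (-X.pr η u)

theorem hh_sm [Fintype S] [NeZero q] (hX : X.Ok p k Mw q c Pi)
    (η : X.Jf → Du S q (d + 1) × Du S q (d + 1 + 1)) : ∃ C : ℂ, ∀ (τ : V → S) (x : J → SP S P),
    Rt X x → X.Hh (d + 1) τ x η = C * Sm X Pi τ x η := by
  refine ⟨(Nat.card (gm S (d + 1 + 1 + 1)) : ℂ) /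
    ((Nat.card (Qp (Nks Pi) (d + 1)) : ℂ) * ((X.Cg (d + 1)).card : ℂ)), fun τ x hx => ?_⟩
  have c0 : (Nat.card (Qp (Nks Pi) (d + 1)) : ℂ) ≠ 0 := by
    exact_mod_cast Nat.card_pos.ne'
  have c2 : ((X.Cg (d + 1 + 1)).card : ℂ) ≠ 0 := by
    have : 0 < (X.Cg (d + 1 + 1)).card := Finset.card_pos.2 ⟨1, cg_mem.2 fun j => one_mem _⟩
    exact_mod_cast this.ne'
  -- the value of `H`
  have h1 : ∀ y : J → SP S P, Rt X y → X.H (d + 1 + 1) τ y =
      (Nat.card (gm S (d + 1 + 1 + 1)) : ℂ) /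
        ((Nat.card (Qp (Nks Pi) (d + 1)) : ℂ) * ((X.Cg (d + 1 + 1)).card : ℂ)) *
      ∑ w ∈ X.Cg (d + 1 + 1), if X.G (X.mv w y) ∧
        pq (Nks Pi) (d + 1) (Pd X τ (X.mv w y)) = 1 then (1 : ℂ) else 0 := by
    intro y hy
    have h2 := h_cnt X hX (d + 1 + 1) τ y hy
    have h3 : ((X.Cg (d + 1 + 1)).filter fun u => X.G (X.mv u y) ∧
        (X.l.map fun v => τ v * (X.bk (X.mv u y) v).left * (τ v)⁻¹).prod ∈
          (⁅Nks Pi ⊓ gm S (d + 1 + 1), ⊤⁆ : Subgroup S)) =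
        (X.Cg (d + 1 + 1)).filter fun w => X.G (X.mv w y) ∧
          pq (Nks Pi) (d + 1) (Pd X τ (X.mv w y)) = 1 := by
      refine Finset.filter_congr fun w _ => ?_
      rw [pq_one]
      rfl
    rw [h3] at h2
    have h4 : (Nat.card (Qp (Nks Pi) (d + 1)) : ℂ) *
        (((X.Cg (d + 1 + 1)).filter fun u => X.G (X.mv u y) ∧ X.RR τ (X.mv u y) = 1).card : ℂ) =
        ∑ w ∈ X.Cg (d + 1 + 1), if X.G (X.mv w y) ∧
          pq (Nks Pi) (d + 1) (Pd X τ (X.mv w y)) = 1 then (1 : ℂ) else 0 := by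
      rw [← Finset.sum_filter, Finset.sum_const, nsmul_eq_mul, mul_one]
      exact_mod_cast h2
    rw [← h4]
    unfold AD.H
    field_simp
  unfold AD.Hh Sm
  rw [Finset.sum_congr rfl fun u _ => by rw [h1 _ (rt_mv X hx u), mul_assoc], ← Finset.mul_sum]
  have h5 : ∑ u ∈ X.Cg (d + 1), (∑ w ∈ X.Cg (d + 1 + 1), if X.G (X.mv w (X.mv u x)) ∧
      pq (Nks Pi) (d + 1) (Pd X τ (X.mv w (X.mv u x))) = 1 then (1 : ℂ) else 0) *
        H63.MA.ep q (-X.pr η u) = ((X.Cg (d + 1 + 1)).card : ℂ) *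
      ∑ u ∈ X.Cg (d + 1), (if X.G (X.mv u x) ∧ pq (Nks Pi) (d + 1) (Pd X τ (X.mv u x)) = 1 then
        (1 : ℂ) else 0) * H63.MA.ep q (-X.pr η u) := by
    rw [Finset.sum_congr rfl fun u _ => Finset.sum_mul _ _ _, Finset.sum_comm]
    rw [← nsmul_eq_mul, ← Finset.sum_const]
    refine Finset.sum_congr rfl fun w hw => ?_
    have hw' : w ∈ X.Cg (d + 1) := H73.OW.cg_anti X (d + 1) hw
    rw [← cg_shift hw' fun u => (if X.G (X.mv u x) ∧
      pq (Nks Pi) (d + 1) (Pd X τ (X.mv u x)) = 1 then (1 : ℂ) else 0) *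
        H63.MA.ep q (-X.pr η u)]
    refine Finset.sum_congr rfl fun u hu => ?_
    have h6 : X.pr η (w * u) = X.pr η u := by
      have h7 := pr_mul' η (cg_mem.1 hw') (cg_mem.1 hu)
      have h8 : X.pr η w = 0 := by
        unfold AD.pr
        refine Finset.sum_eq_zero fun j _ => ?_
        have h9 := cg_mem.1 hw j
        split_ifs with hp
        · rw [if_pos hp] at h9
          rw [(gk_zero (gm_anti _ h9)).2 h9, map_zero]
        · rw [if_neg hp] at h9
          rw [(gk_zero (gm_anti _ h9)).2 h9, map_zero]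
      rw [h8, zero_add] at h7
      exact h7
    rw [H73.S3.mv_mv, h6]
  rw [h5]
  field_simp

/-- THE LAW -/
theorem law [Fintype S] [NeZero q] (hX : X.Ok p k Mw q c Pi) (hd : 2 ≤ d)
    (Bf : ∀ i j : ℕ, Gr S i →+ Gr S j →+ ZMod q)
    (hjac : ∀ i j k : ℕ, 1 ≤ i → 1 ≤ j → 1 ≤ k → i + j + k = d + 2 → ∀ u ∈ gm S i,
      ∀ v ∈ gm S j, ∀ w ∈ gm S k, Bf (i + j) k (gk (i + j) ⁅u, v⁆) (gk k w) =
        Bf i (j + k) (gk i u) (gk (j + k) ⁅v, w⁆) - Bf j (i + k) (gk j v) (gk (i + k) ⁅u, w⁆))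
    (η : X.Jf → Du S q (d + 1) × Du S q (d + 1 + 1))
    (hη : ∀ j : X.Jf, X.pp j → ∀ z, (η j).1.ap z = Bf 1 (d + 1) (gk 1 (X.y j)) z) :
    Lwf X Bf η := by
  intro τ z x hz hx
  obtain ⟨C, hC⟩ := hh_sm hX η
  rw [hC _ x hx, hC τ x hx]
  suffices h : Sm X Pi (fun v => τ v * z v) x η =
      H63.MA.ep q (X.lw Bf d x z) * Sm X Pi τ x η by
    rw [h]
    ring
  by_cases hG : ∃ u₀ ∈ X.Cg (d + 1), X.G (X.mv u₀ x)
  · obtain ⟨u₀, hu₀, hG⟩ := hG
    have hx' : Rt X (X.mv u₀ x) := rt_mv X hx u₀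
    have hB : ∀ v ∈ X.l, (X.bk (X.mv u₀ x) v).left ∈ Nks Pi := fun v hv =>
      bk_nks X hX hx' hG hv
    have hb2 : ∀ v ∈ X.l, X.ppl v → ∀ y : J → SP S P, Rt X y → (X.bk y v).left ∈ gm S 2 := by
      rintro v _ ⟨j, hj, hp, rfl⟩ y hy
      rw [bk_pp X hX hy hj hp]
      exact gm_comm 1 (by rw [gm_one]; exact Subgroup.mem_top _)
    have hL : ∀ v ∈ X.l, Lm X Pi η ⁅z v, (X.bk (X.mv u₀ x) v).left⁆
        (if X.ppl v then Bf d 2 (gk d (z v)) (gk 2 (X.bk x v).left)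
          else Bf (d + 1) 1 (gk (d + 1) (z v)) (gk 1 (X.bk x v).left)) := by
      intro v hv
      obtain ⟨w, hw, hw'⟩ := bk_ch X hX hx (fun j => cg_mem.1 hu₀ j) hv
      have h1 := hz v
      by_cases hp : X.ppl v
      · rw [if_pos hp] at h1 ⊢
        have h2 : gk 2 (X.bk (X.mv u₀ x) v).left = gk 2 (X.bk x v).left := by
          rw [hw', gk_mul (gm_le (by omega) hw) (hb2 v hv hp x hx),
            (gk_zero (gm_le (by omega) hw)).2 (gm_le (by omega) hw), zero_add]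
        rw [← h2]
        exact lm_ij hX Bf hjac η hη (by omega) (by omega) (by omega) h1
          ⟨hB v hv, hb2 v hv hp _ hx'⟩
      · rw [if_neg hp] at h1 ⊢
        have h2 : gk 1 (X.bk (X.mv u₀ x) v).left = gk 1 (X.bk x v).left := by
          rw [hw', gk_mul (by rw [gm_one]; exact Subgroup.mem_top _)
            (by rw [gm_one]; exact Subgroup.mem_top _),
            (gk_zero (by rw [gm_one]; exact Subgroup.mem_top _)).2 (gm_le (by omega) hw), zero_add]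
        rw [← h2]
        exact lm_ij hX Bf hjac η hη (by omega) (by omega) (by omega) h1
          ⟨hB v hv, by rw [gm_one]; exact Subgroup.mem_top _⟩
    obtain ⟨h0, n, h1, h2, h3, h4⟩ := Lm.list X.l hL
    have hn : n ∈ X.Cg (d + 1) := cg_mem.2 (ng h1 h2)
    have hQ : ∀ v ∈ X.l, ∀ y : J → SP S P, Rt X y → X.G y →
        ⁅z v, (X.bk y v).left⁆ ∈ Qc (Nks Pi) (d + 1) := by
      intro v hv y hy hGy
      have h5 := hz v
      have h6 := bk_nks X hX hy hGy hv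
      by_cases hp : X.ppl v
      · rw [if_pos hp] at h5
        obtain ⟨e, rfl⟩ : ∃ e, d = e + 1 := ⟨d - 1, by omega⟩
        exact mem_qq (i := e) (j := 2) (by omega) (by omega) h5 ⟨h6, hb2 v hv hp y hy⟩
      · rw [if_neg hp] at h5
        exact mem_qq (i := d) (j := 1) (by omega) (by omega) h5
          ⟨h6, by rw [gm_one]; exact Subgroup.mem_top _⟩
    -- the product after the change of the conjugators
    have hP : ∀ u ∈ X.Cg (d + 1), X.G (X.mv u x) →
        pq (Nks Pi) (d + 1) (Pd X (fun v => τ v * z v) (X.mv u x)) =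
          pq (Nks Pi) (d + 1) (Pd X τ (X.mv n (X.mv u x))) := by
      intro u hu hGu
      have hy := rt_mv X hx u
      rw [h4 _ hy τ]
      unfold Pd
      rw [map_list_prod, map_list_prod, map_list_prod, List.map_map, List.map_map, List.map_map,
        ← prod_cen]
      · congr 1
        refine List.map_congr_left fun v hv => ?_
        show pq _ _ _ = pq _ _ _ * pq _ _ _
        beta_reduce
        have e1 : τ v * z v * (X.bk (X.mv u x) v).left * (τ v * z v)⁻¹ =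
            (τ v * ⁅z v, (X.bk (X.mv u x) v).left⁆ * (τ v)⁻¹) *
              (τ v * (X.bk (X.mv u x) v).left * (τ v)⁻¹) := by
          rw [commutatorElement_def]
          group
        rw [e1, map_mul, qq_conj (hQ v hv _ hy hGu)]
        congr 1
        -- comparison with `u₀`
        have e2 : X.mv u x = X.mv (u * u₀⁻¹) (X.mv u₀ x) := by
          rw [H73.S3.mv_mv, inv_mul_cancel_right]
        obtain ⟨w, hw, hw'⟩ := bk_ch X hX hx'
          (fun j => cg_mem.1 (cg_mul X hu (cg_inv X hu₀)) j) hv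
        rw [← e2] at hw'
        have hwN : w ∈ Nks Pi := by
          have e3 : w = (X.bk (X.mv u x) v).left * ((X.bk (X.mv u₀ x) v).left)⁻¹ := by
            rw [hw']
            group
          rw [e3]
          exact mul_mem (bk_nks X hX hy hGu hv) (inv_mem (hB v hv))
        have e4 : ⁅z v, w * (X.bk (X.mv u₀ x) v).left⁆ =
            ⁅z v, w⁆ * (w * ⁅z v, (X.bk (X.mv u₀ x) v).left⁆ * w⁻¹) := by
          simp only [commutatorElement_def]
          group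
        have e5 : ⁅z v, w⁆ ∈ Qp (Nks Pi) (d + 1) :=
          mem_qp (i := 0) (j := d + 2) (by omega) (by omega)
            (by rw [zero_add, gm_one]; exact Subgroup.mem_top _) ⟨hwN, hw⟩
        rw [hw', e4, map_mul, (pq_one _ _).2 e5, one_mul, qq_conj (hQ v hv _ hx' hG)]
      · intro v hv g
        exact qq_cen' (hL v hv).1 g
    have hGn : ∀ y : J → SP S P, X.G (X.mv n y) ↔ X.G y := by
      intro y
      have e1 : ∀ j ∈ X.Jf, Pi (X.mv n y j) = Pi (y j) := by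
        intro j hj
        unfold AD.mv
        rw [dif_pos hj, map_mul, mem_nks.1 (h1 ⟨j, hj⟩).1, one_mul]
      exact ⟨fun h => hX.gi _ _ e1 h, fun h => hX.gi _ _ (fun j hj => (e1 j hj).symm) h⟩
    have h3' : X.pr η n = X.lw Bf d x z := h3
    unfold Sm
    rw [Finset.mul_sum]
    refine Eq.trans ?_ (cg_shift hn _)
    refine Finset.sum_congr rfl fun u hu => ?_
    have h6 : X.pr η (n * u) = X.lw Bf d x z + X.pr η u := by
      have h7 := pr_mul' η (cg_mem.1 hn) (cg_mem.1 hu)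
      rw [h3'] at h7
      exact h7
    have h8 : X.mv (n * u) x = X.mv n (X.mv u x) := (H73.S3.mv_mv X n u x).symm
    have h9 : H63.MA.ep q (-X.pr η u) =
        H63.MA.ep q (X.lw Bf d x z) * H63.MA.ep q (-X.pr η (n * u)) := by
      rw [← epq_add, h6]
      congr 1
      ring
    rw [h9, h8]
    by_cases hGu : X.G (X.mv u x)
    · rw [hP u hu hGu]
      simp only [hGn]
      ring
    · rw [if_neg fun h => hGu h.1, if_neg fun h => hGu ((hGn _).1 h.1)]
      ring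
  · have h1 : ∀ τ : V → S, Sm X Pi τ x η = 0 := by
      intro τ
      unfold Sm
      refine Finset.sum_eq_zero fun u hu => ?_
      rw [if_neg fun h => hG ⟨u, hu, h.1⟩, zero_mul]
    rw [h1, h1, mul_zero]

end ad

end H97.OW
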