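import Pool.Agent.H73.OW.Two
import Pool.Agent.H62.OW.Okw
import Pool.Agent.H24.OW.Rch
import Pool.Agent.H12.OW.Kil

/-!
# [H97 OW DEF] MP_b39724_nt, THEOREM OW: definitions, abstract frame (think 1838, 1835; the text is (A), only the abstract definitions are used)

`M = d + 1` own letters, relation degree `d + 2`. `S = Sp Pa A` with `P`, `St = Sp Pa Be` with `P'`, `O : OwL P P' A Be (Fin M)` (H12/OW/Kil).
* `EVo : SP St P' →* SP S P`, `KI i : SP St P' →* SP St P'` (kills the letters of own index `i`).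
* `Yd X t G`: the data `X` with other values `t`, `G` (in `SP St P'`); all the other fields are DEFINITIONALLY those of `X`.
* `AD.Okw` is in H62/OW/Okw. `OF`: the frame: `t` lies over `X.t`, the letters `r i` (`i : Fin M`) are the own letters.
* `Tj r j = {i | r i ≠ j}`, `Tv X r v = {i | X.pj (r i) ≠ v}`. `Gmv u`: the changes of the values (`u j ∈ Kk (Tj r j)`: `K_i` at the own letter `r i`, `K` elsewhere);
  `Zmv z`: the changes of the conjugators (`z v ∈ Kk (Tv X r v)`).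
* `PsiO Bf psi R kap`: the functional `psi^` (a total function, junk outside `K = Kk univ`). `Fam Bf R kap ζ`: the two layer family `ζ` lies above the bad one layer family.
* `Phi`: the compensated function `Hhh (ev τ) (EV x) ζ * ep (psi (RR τ x))`. `ka j u`: its phase at the change `u` of the letter `j` (`Dj` of H24/OW/Rch). `Eta`: `η` is the one layer
  family (functionals on all of `Gr`, through the projections `pj`) with the values `ka`; `0` at the fixed letters `pp`. `eth`: such a family.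
* `Ty x τ ζ j`: the part in `S` of the fine type of the letter `j`: `ζ j`, `τ`, `x j`, prefix modulo `gam_2`. `EvN τ x`: the values in `S`.
-/

set_option autoImplicit false

open scoped commutatorElement
open scoped Classical

noncomputable section

namespace H97.OW

open H1.S3 H73.S3 H73.OW H12.OW H82.S3

attribute [local instance 50] Fintype.ofFinite

section yd

variable {S P St P' : Type} [Group S] [Group P] [MulDistribMulAction P S] [Group St] [Group P']
  [MulDistribMulAction P' St] {J V : Type}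

/-- other values -/
@[reducible] def Yd (X : AD S P J V) (t : J → SP St P') (G : (J → SP St P') → Prop) : AD St P' J V where
  pj := X.pj
  bl := X.bl
  l := X.l
  W := X.W
  Jf := X.Jf
  pp := X.pp
  t := t
  G := G

theorem okw_of (X : AD S P J V) {p k Mw q c : ℕ} {P'' : Type} [Group P''] {Pi : SP S P →* P''}
    (hX : X.Ok p k Mw q c Pi) : X.Okw p k Mw q :=
  ⟨hX.nd, hX.bn, hX.bp, hX.jl, hX.al, hX.t1, hX.pb, hX.pt, hX.pw, hX.hb, hX.rel, hX.pg, hX.qe, hX.qp,
    hX.kM, hX.mx⟩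

end yd

section fr

variable {P P' A Be : Type} [Group P] [Group P'] [MulAction P A] [MulAction P' Be] {M : ℕ}
  (O : OwL P P' A Be (Fin M)) (Pa : Par) {J V : Type}

/-- the evaluation -/
def EVo : SP (Sp Pa Be) P' →* SP (Sp Pa A) P := spm (O.ev Pa) O.f fun g x => O.ev_smul Pa g x

/-- kill the letters of own index `i` -/
def KI (i : Fin M) : SP (Sp Pa Be) P' →* SP (Sp Pa Be) P' :=
  spm (O.ki Pa i) (MonoidHom.id P') fun g x => O.ki_smul Pa i g x

theorem EVo_left (x : SP (Sp Pa Be) P') : (EVo O Pa x).left = O.ev Pa x.left := spm_left _ _ _ _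
theorem EVo_right (x : SP (Sp Pa Be) P') : (EVo O Pa x).right = O.f x.right := spm_right _ _ _ _
theorem EVo_il (u : Sp Pa Be) : EVo O Pa (il u) = il (O.ev Pa u) := spm_il _ _ _ _
theorem KI_left (i : Fin M) (x : SP (Sp Pa Be) P') : (KI O Pa i x).left = O.ki Pa i x.left :=
  spm_left _ _ _ _
theorem KI_right (i : Fin M) (x : SP (Sp Pa Be) P') : (KI O Pa i x).right = x.right :=
  spm_right _ _ _ _
theorem KI_il (i : Fin M) (u : Sp Pa Be) : KI O Pa i (il u) = il (O.ki Pa i u) := spm_il _ _ _ _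

/-- the own indices of the other letters -/
def Tj (r : Fin M → J) (j : J) : Finset (Fin M) := Finset.univ.filter fun i => r i ≠ j

variable (X : AD (Sp Pa A) P J V) (t : J → SP (Sp Pa Be) P') (G : (J → SP (Sp Pa Be) P') → Prop)
  (r : Fin M → J)

/-- the own indices of the letters at the other places -/
def Tv (v : V) : Finset (Fin M) := Finset.univ.filter fun i => X.pj (r i) ≠ v

/-- the frame with own letters -/
structure OF (p k Mw q : ℕ) : Prop where
  inj : Function.Injective r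
  mem : ∀ i, r i ∈ X.Jf ∧ X.pp (r i)
  ev : ∀ j, EVo O Pa (t j) = X.t j
  kj : ∀ j i, r i ≠ j → KI O Pa i (t j) = t j
  kr : ∀ i, KI O Pa i (t (r i)) = 1
  ok : (Yd X t G).Okw p k Mw q

/-- changes of the values -/
def Gmv (u : X.Jf → Sp Pa Be) : Prop := ∀ j : X.Jf, u j ∈ O.Kk Pa (Tj r j.1)

/-- changes of the conjugators -/
def Zmv (z : V → Sp Pa Be) : Prop := ∀ v, z v ∈ O.Kk Pa (Tv Pa X r v)

variable {d q : ℕ}

/-- the functional of the elements which need all own letters -/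
structure PsiO (Bf : ∀ i j : ℕ, Gr (Sp Pa A) i →+ Gr (Sp Pa A) j →+ ZMod q) (psi : Sp Pa Be → ZMod q)
    (R : Subgroup P) (kap : P → Du (Sp Pa A) q (d + 1 + 1)) : Prop where
  add : ∀ u ∈ O.Kk Pa Finset.univ, ∀ v ∈ O.Kk Pa Finset.univ, psi (u * v) = psi u + psi v
  bot : ∀ u ∈ O.Kk Pa Finset.univ, u ∈ gm (Sp Pa Be) (d + 3) → psi u = 0
  com : ∀ i j : ℕ, 1 ≤ i → 1 ≤ j → i + j = d + 2 → ∀ T T' : Finset (Fin M), T ∪ T' = Finset.univ →
    ∀ u ∈ O.Kk Pa T, u ∈ gm (Sp Pa Be) i → ∀ w ∈ O.Kk Pa T', w ∈ gm (Sp Pa Be) j →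
      psi ⁅u, w⁆ = -Bf i j (gk i (O.ev Pa u)) (gk j (O.ev Pa w))
  eqv : ∀ g : P', O.f g ∈ R → ∀ u ∈ O.Kk Pa Finset.univ, u ∈ gm (Sp Pa Be) (d + 2) →
    (kap (O.f g)).ap (gk (d + 1 + 1) (O.ev Pa u)) = psi (g⁻¹ • u) - psi u

/-- the two layer family lies above the bad one layer family -/
structure Fam (Bf : ∀ i j : ℕ, Gr (Sp Pa A) i →+ Gr (Sp Pa A) j →+ ZMod q) (R : Subgroup P)
    (kap : P → Du (Sp Pa A) q (d + 1 + 1)) (ζ : X.Jf → Dz (Sp Pa A) q d × Dz (Sp Pa A) q (d + 1)) :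
    Prop where
  ff : X.Ff2 ζ
  rng : ∀ w, X.ph w ∈ R
  hpp : ∀ j : X.Jf, X.pp j → ∀ u ∈ gm (Sp Pa A) (d + 1),
    (ζ j).1.ap (gz d u) = Bf 1 (d + 1) (gk 1 (X.y j)) (gk (d + 1) u)
  hnp : ∀ j : X.Jf, ¬X.pp j → ∀ u ∈ gm (Sp Pa A) (d + 2), (ζ j).2.ap (gz (d + 1) u) =
    (zeta (fun w => kap (X.ph w)) FreeGroup.of X.W (X.bl (X.pj j)) j).ap (gk (d + 1 + 1) u)

/-- the two layer family at a change -/
def zap (ζ : X.Jf → Dz (Sp Pa A) q d × Dz (Sp Pa A) q (d + 1)) (j : X.Jf) (u : Sp Pa A) : ZMod q :=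
  if X.pp j then (ζ j).1.ap (gz d u) else (ζ j).2.ap (gz (d + 1) u)

/-- the compensated function -/
def Phi [Fintype (Sp Pa A)] (psi : Sp Pa Be → ZMod q)
    (ζ : X.Jf → Dz (Sp Pa A) q d × Dz (Sp Pa A) q (d + 1)) (τ : V → Sp Pa Be)
    (x : J → SP (Sp Pa Be) P') : ℂ :=
  X.Hhh (fun v => O.ev Pa (τ v)) (fun j => EVo O Pa (x j)) ζ *
    H63.MA.ep q (psi ((Yd X t G).RR τ x).left)

/-- the phase at a change of the letter `j` -/
def ka (psi : Sp Pa Be → ZMod q) (ζ : X.Jf → Dz (Sp Pa A) q d × Dz (Sp Pa A) q (d + 1))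
    (τ : V → Sp Pa Be) (x : J → SP (Sp Pa Be) P') (j : X.Jf) (u : Sp Pa Be) : ZMod q :=
  zap Pa X ζ j (O.ev Pa u) + psi (H24.OW.Dj (Yd X t G) τ x j.1 u)

/-- `η` is the one layer family of the compensated function -/
def Eta (psi : Sp Pa Be → ZMod q) (ζ : X.Jf → Dz (Sp Pa A) q d × Dz (Sp Pa A) q (d + 1))
    (τ : V → Sp Pa Be) (x : J → SP (Sp Pa Be) P')
    (η : X.Jf → Du (Sp Pa Be) q d × Du (Sp Pa Be) q (d + 1)) : Prop :=
  ∀ j : X.Jf,
    (X.pp j → (η j).2 = 0 ∧ ((∀ i, r i ≠ j.1) → (η j).1 = 0) ∧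
      (∀ z, (η j).1.ap z = (η j).1.ap (O.pj Pa (Tj r j.1) d z)) ∧
      ∀ u ∈ O.Kk Pa (Tj r j.1), u ∈ gm (Sp Pa Be) d →
        (η j).1.ap (gk d u) = ka O Pa X t G psi ζ τ x j u) ∧
    (¬X.pp j → (η j).1 = 0 ∧ (∀ z, (η j).2.ap z = (η j).2.ap (O.pj Pa Finset.univ (d + 1) z)) ∧
      ∀ u ∈ O.Kk Pa Finset.univ, u ∈ gm (Sp Pa Be) (d + 1) →
        (η j).2.ap (gk (d + 1) u) = ka O Pa X t G psi ζ τ x j u)

/-- the one layer family -/
def eth (psi : Sp Pa Be → ZMod q) (ζ : X.Jf → Dz (Sp Pa A) q d × Dz (Sp Pa A) q (d + 1))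
    (τ : V → Sp Pa Be) (x : J → SP (Sp Pa Be) P') : X.Jf → Du (Sp Pa Be) q d × Du (Sp Pa Be) q (d + 1) :=
  if h : ∃ η, Eta O Pa X t G r psi ζ τ x η then h.choose else 0

/-- the values in `S` -/
def EvT (τ : V → Sp Pa Be) (v : V) : Sp Pa A := O.ev Pa (τ v)

/-- the values in `S` -/
def EvX (x : J → SP (Sp Pa Be) P') (j : J) : SP (Sp Pa A) P := EVo O Pa (x j)

end fr

section ty

variable {S P : Type} [Group S] [Group P] [MulDistribMulAction P S] {J V : Type} {q d : ℕ}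

variable (S q d) in
/-- fine types (without the label of the letter) -/
abbrev Fty : Type := (Dz S q d × Dz S q (d + 1)) × Gr S 1 × Gr S 1 × Gr S 1

/-- the fine type of the letter `j`: functionals, conjugator, value, prefix modulo `gam_2` -/
def Ty (X : AD S P J V) (τ : V → S) (x : J → SP S P) (ζ : X.Jf → Dz S q d × Dz S q (d + 1))
    (j : X.Jf) : Fty S q d :=
  (ζ j, gk 1 (τ (X.pj j)), gk 1 (x j).left, X.pfx x (X.pj j))

end ty

end H97.OW
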